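import Pool.Agent.H27.L1.H16.GZ.Targets4

/-!
# MP_52e316_nt, module SEX: Siegel reduced bases of the sublattices exist
-/

set_option autoImplicit false

namespace Pool.Agent.H27.L1.H68.GZ

open MeasureTheory Pool.Agent.H27.L1.H34.GM Pool.Agent.H27.L1.H34.GZ

theorem cR_mul {m : ℕ} (α β : ZM m) : cR (α * β) = cR α * cR β := by
  unfold cR
  exact Matrix.map_mul (f := Int.castRingHom ℝ)

theorem cR_det {m : ℕ} (α : ZM m) : (cR α).det = (α.det : ℝ) := by
  unfold cR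
  have := (Int.castRingHom ℝ).map_det α
  exact this.symm

theorem pf_SEX (hR : T_RED) (hI : T_IDX) : T_SEX := by
  classical
  intro m b hb
  have key : ∀ L : AddSubgroup (Fin m → ℤ), ∃ (x : ZM m) (a : Fin m → ℝ), L.index ≠ 0 →
      x.det ≠ 0 ∧ AddSubgroup.closure (Set.range x) = L ∧ ∃ n k : Mat m,
        Sgl (cR x * b) n a k := by
    intro L
    by_cases hL : L.index = 0
    · exact ⟨1, 1, fun h => absurd hL h⟩
    obtain ⟨-, h2, -, h4, -⟩ := hI m
    obtain ⟨x, hx, hxL⟩ := h2 L hL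
    have hdet : (cR x * b).det ≠ 0 := by
      rw [Matrix.det_mul, cR_det]
      exact mul_ne_zero (by exact_mod_cast hx) hb
    obtain ⟨γ, hγ, n, a, k, hs⟩ := hR m (cR x * b) hdet
    refine ⟨γ * x, a, fun _ => ⟨?_, ?_, n, k, ?_⟩⟩
    · rw [Matrix.det_mul]
      exact mul_ne_zero ((Matrix.isUnit_iff_isUnit_det γ).1 hγ).ne_zero hx
    · rw [← hxL]
      exact ((h4 x (γ * x) hx).2 ⟨γ, hγ, rfl⟩).symm
    · rw [cR_mul, Matrix.mul_assoc]
      exact hs
  choose sel vs h using key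
  exact ⟨sel, vs, ⟨fun L hL => (h L hL).1, fun L hL => (h L hL).2.1, fun L hL => (h L hL).2.2⟩⟩

end Pool.Agent.H27.L1.H68.GZ
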